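import Mathlib

open MeasureTheory Filter Set
open scoped ENNReal Topology

namespace Pool.Agent.Lib.MP_1ea763_an

lemma mp_nsmul {n : ℕ} (hn : 1 ≤ n) :
    MeasurePreserving (fun y : UnitAddCircle => n • y) volume volume := by
  rcases hn.eq_or_lt with h | h
  · subst h
    have h1 : (fun y : UnitAddCircle => (1 : ℕ) • y) = id := by funext y; simp
    rw [h1]
    exact MeasurePreserving.id (volume : Measure UnitAddCircle)
  · exact (AddCircle.ergodic_nsmul h).toMeasurePreserving

lemma meas_nsmul (n : ℕ) : Measurable (fun y : UnitAddCircle => n • y) :=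
  (continuous_nsmul n).measurable

/-- The set of points whose first visit to `E` under doubling happens at time `n`. -/
def FF (E : Set UnitAddCircle) (n : ℕ) : Set UnitAddCircle :=
  {x | (2 ^ n : ℕ) • x ∈ E ∧ ∀ j < n, (2 ^ j : ℕ) • x ∉ E}

lemma meas_FF {E : Set UnitAddCircle} (hE : MeasurableSet E) (n : ℕ) :
    MeasurableSet (FF E n) := by
  have h1 : FF E n = (fun y : UnitAddCircle => (2 ^ n : ℕ) • y) ⁻¹' E ∩
      ⋂ j ∈ Finset.range n, ((fun y : UnitAddCircle => (2 ^ j : ℕ) • y) ⁻¹' E)ᶜ := by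
    ext x; simp [FF]
  rw [h1]
  exact (meas_nsmul _ hE).inter
    (Finset.measurableSet_biInter _ fun j _ => (meas_nsmul _ hE).compl)

lemma FF_unique {E : Set UnitAddCircle} {x : UnitAddCircle} {n n' : ℕ} (h : x ∈ FF E n)
    (h' : x ∈ FF E n') : n = n' := by
  rcases lt_trichotomy n n' with hl | hl | hl
  · exact absurd h.1 (h'.2 n hl)
  · exact hl
  · exact absurd h'.1 (h.2 n' hl)

lemma FF_shift {E : Set UnitAddCircle} {x : UnitAddCircle} {n s : ℕ} (h : x ∈ FF E n)
    (hs : s ≤ n) : (2 ^ s : ℕ) • x ∈ FF E (n - s) := by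
  refine ⟨?_, fun j hj => ?_⟩
  · rw [smul_smul, ← pow_add, Nat.sub_add_cancel hs]; exact h.1
  · rw [smul_smul, ← pow_add]; exact h.2 _ (by omega)

lemma never_null {E : Set UnitAddCircle} (hE : MeasurableSet E) (hpos : volume E ≠ 0) :
    volume {x : UnitAddCircle | ∀ n : ℕ, (2 ^ n : ℕ) • x ∉ E} = 0 := by
  set S : Set UnitAddCircle := ⋃ n : ℕ, (fun y : UnitAddCircle => (2 ^ n : ℕ) • y) ⁻¹' E with hS
  have hSm : MeasurableSet S := MeasurableSet.iUnion fun n => meas_nsmul _ hE
  have herg := AddCircle.ergodic_nsmul (T := 1) (n := 2) (by norm_num)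
  have hsub : (fun y : UnitAddCircle => (2 : ℕ) • y) ⁻¹' S ⊆ S := by
    intro x hx
    simp only [hS, mem_preimage, mem_iUnion] at hx ⊢
    obtain ⟨n, hn⟩ := hx
    refine ⟨n + 1, ?_⟩
    rw [pow_succ, ← smul_smul]; exact hn
  have hES : E ⊆ S := by
    intro x hx
    simp only [hS, mem_preimage, mem_iUnion]
    exact ⟨0, by simpa using hx⟩
  rcases herg.ae_empty_or_univ_of_preimage_ae_le hSm.nullMeasurableSet hsub.eventuallyLE with h | h
  · exfalso
    apply hpos
    have : volume S = 0 := by rw [measure_congr h]; simp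
    exact measure_mono_null hES this
  · have h1 : {x : UnitAddCircle | ∀ n : ℕ, (2 ^ n : ℕ) • x ∉ E} = Sᶜ := by
      ext x; simp [hS]
    rw [h1]
    exact ae_eq_univ.1 h

/-- A Rokhlin type phase set for the doubling map. -/
lemma exists_phase (r H : ℕ) (hr : 1 ≤ r) :
    ∃ A Z : Set UnitAddCircle, MeasurableSet A ∧ MeasurableSet Z ∧ volume A ≤ (r : ℝ≥0∞)⁻¹ ∧
      volume Z ≤ 2⁻¹ ∧ ∀ x ∉ Z, ∃ i < r, ∀ s ≤ H, s % r = i → (2 ^ s : ℕ) • x ∈ A := by
  classical
  set ε : ℝ := 1 / (4 * ((H : ℝ) + 1)) with hε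
  have hε0 : 0 < ε := by positivity
  set E : Set UnitAddCircle := Metric.closedBall 0 ε with hEdef
  have hE : MeasurableSet E := measurableSet_closedBall
  have hvol : volume E = ENNReal.ofReal (min 1 (2 * ε)) := AddCircle.volume_closedBall 1 ε
  have hpos : volume E ≠ 0 := by
    rw [hvol]; simp only [ne_eq, ENNReal.ofReal_eq_zero, not_le]; positivity
  let AA : ℕ → Set UnitAddCircle := fun a => ⋃ n : ℕ, ⋃ (_ : n % r = a), FF E n
  have hAAm : ∀ a, MeasurableSet (AA a) := fun a =>
    MeasurableSet.iUnion fun n => MeasurableSet.iUnion fun _ => meas_FF hE n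
  have hdisj : Set.PairwiseDisjoint (↑(Finset.range r) : Set ℕ) AA := by
    intro a _ b _ hab
    rw [Function.onFun, Set.disjoint_left]
    intro x hx hx'
    simp only [AA, mem_iUnion] at hx hx'
    obtain ⟨n, hn, h1⟩ := hx
    obtain ⟨n', hn', h2⟩ := hx'
    have := FF_unique h1 h2
    apply hab; rw [← hn, ← hn', this]
  have hsum : ∑ a ∈ Finset.range r, volume (AA a) ≤ ∑ _a ∈ Finset.range r, (r : ℝ≥0∞)⁻¹ := by
    rw [← measure_biUnion_finset hdisj fun a _ => hAAm a]
    rw [Finset.sum_const, Finset.card_range, nsmul_eq_mul,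
      ENNReal.mul_inv_cancel (by simp; omega) (by simp)]
    calc _ ≤ volume (univ : Set UnitAddCircle) := measure_mono (subset_univ _)
      _ = 1 := UnitAddCircle.measure_univ
  obtain ⟨a, ha, hAa⟩ := ENNReal.exists_le_of_sum_le (Finset.nonempty_range_iff.2 (by omega)) hsum
  have har : a < r := Finset.mem_range.1 ha
  let Z : Set UnitAddCircle := {x : UnitAddCircle | ∀ n : ℕ, (2 ^ n : ℕ) • x ∉ E} ∪
    ⋃ n ∈ Finset.range H, (fun y : UnitAddCircle => (2 ^ n : ℕ) • y) ⁻¹' E
  have hZm : MeasurableSet Z := by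
    refine MeasurableSet.union ?_ (Finset.measurableSet_biUnion _ fun n _ => meas_nsmul _ hE)
    have h1 : {x : UnitAddCircle | ∀ n : ℕ, (2 ^ n : ℕ) • x ∉ E}
        = ⋂ n : ℕ, ((fun y : UnitAddCircle => (2 ^ n : ℕ) • y) ⁻¹' E)ᶜ := by
      ext x; simp
    rw [h1]
    exact MeasurableSet.iInter fun n => (meas_nsmul _ hE).compl
  refine ⟨AA a, Z, hAAm a, hZm, hAa, ?_, ?_⟩
  · calc volume Z ≤ volume {x : UnitAddCircle | ∀ n : ℕ, (2 ^ n : ℕ) • x ∉ E} +
          volume (⋃ n ∈ Finset.range H, (fun y : UnitAddCircle => (2 ^ n : ℕ) • y) ⁻¹' E) :=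
          measure_union_le _ _
      _ ≤ 0 + ∑ n ∈ Finset.range H,
          volume ((fun y : UnitAddCircle => (2 ^ n : ℕ) • y) ⁻¹' E) := by
          rw [never_null hE hpos]
          gcongr
          exact measure_biUnion_finset_le _ _
      _ = H * volume E := by
          rw [zero_add, Finset.sum_congr rfl fun n _ =>
            (mp_nsmul (n := 2 ^ n) Nat.one_le_two_pow).measure_preimage hE.nullMeasurableSet]
          simp
      _ ≤ 2⁻¹ := by
          rw [hvol, ← ENNReal.ofReal_natCast, ← ENNReal.ofReal_mul (by positivity)]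
          have h2 : (2⁻¹ : ℝ≥0∞) = ENNReal.ofReal (2⁻¹ : ℝ) := by
            rw [ENNReal.ofReal_inv_of_pos (by norm_num)]; simp
          rw [h2]
          apply ENNReal.ofReal_le_ofReal
          have h3 : (H : ℝ) * min 1 (2 * ε) ≤ H * (2 * ε) :=
            mul_le_mul_of_nonneg_left (min_le_right _ _) (by positivity)
          refine h3.trans ?_
          rw [hε]
          have h4 : (0 : ℝ) < (H : ℝ) + 1 := by positivity
          rw [show (H : ℝ) * (2 * (1 / (4 * ((H : ℝ) + 1)))) = (H : ℝ) / ((H : ℝ) + 1) / 2 by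
            field_simp; ring]
          have h5 : (H : ℝ) / ((H : ℝ) + 1) ≤ 1 := by rw [div_le_one h4]; linarith
          linarith
  · intro x hx
    simp only [Z, mem_union, Set.mem_ofPred_eq, not_or, not_forall, not_not, mem_iUnion,
      mem_preimage, not_exists, Finset.mem_range] at hx
    obtain ⟨hex, hlow⟩ := hx
    set n := Nat.find hex with hn
    have hxF : x ∈ FF E n := ⟨Nat.find_spec hex, fun j hj => Nat.find_min hex hj⟩
    have hHn : H ≤ n := by
      by_contra hlt
      exact hlow n (by omega) hxF.1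
    refine ⟨(n + (r - a)) % r, Nat.mod_lt _ (by omega), fun s hs hsi => ?_⟩
    simp only [AA, mem_iUnion]
    refine ⟨n - s, ?_, FF_shift hxF (by omega)⟩
    have h1 : (n - s) + s = n := by omega
    have h2 : (n - s + (r - a)) + s ≡ 0 + s [MOD r] := by
      have : n - s + (r - a) + s = n + (r - a) := by omega
      rw [this, zero_add]
      exact hsi.symm
    have h3 : n - s + (r - a) ≡ 0 [MOD r] := Nat.ModEq.add_right_cancel' s h2
    have h4 : n - s + (r - a) + a ≡ 0 + a [MOD r] := h3.add_right a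
    have h5 : n - s + (r - a) + a = n - s + r := by omega
    rw [h5, zero_add] at h4
    have h6 : (n - s + r) % r = a % r := h4
    rw [Nat.add_mod_right, Nat.mod_eq_of_lt har] at h6
    exact h6

end Pool.Agent.Lib.MP_1ea763_an
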