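import Mathlib
import Pool.Agent.Lib.MP_1ea763_an.Phase

open MeasureTheory Filter Set
open scoped ENNReal Topology

namespace Pool.Agent.Lib.MP_1ea763_an

/-- One set of measure at most `1/4` containing phase sets of all orders. -/
lemma exists_set : ∃ A : Set UnitAddCircle, MeasurableSet A ∧ volume A ≤ 4⁻¹ ∧
    ∀ u : ℕ, ∃ Z : Set UnitAddCircle, MeasurableSet Z ∧ volume Z ≤ 2⁻¹ ∧
      ∀ x ∉ Z, ∃ i < 2 ^ (u + 3), ∀ s ≤ 2 ^ (u + 3) * 2 ^ (u + 2 ^ (u + 3)) + 2 ^ (u + 3),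
        s % 2 ^ (u + 3) = i → (2 ^ s : ℕ) • x ∈ A := by
  have h := fun u : ℕ => exists_phase (2 ^ (u + 3))
    (2 ^ (u + 3) * 2 ^ (u + 2 ^ (u + 3)) + 2 ^ (u + 3)) Nat.one_le_two_pow
  choose A Z hA hZ hAv hZv hprop using h
  refine ⟨⋃ u, A u, MeasurableSet.iUnion hA, ?_, fun u => ⟨Z u, hZ u, hZv u, fun x hx => ?_⟩⟩
  · calc volume (⋃ u, A u) ≤ ∑' u, volume (A u) := measure_iUnion_le _
      _ ≤ ∑' u : ℕ, (2⁻¹ : ℝ≥0∞) ^ u * 8⁻¹ := by
          refine ENNReal.tsum_le_tsum fun u => (hAv u).trans (le_of_eq ?_)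
          push_cast
          rw [pow_add, ENNReal.mul_inv (by simp) (by simp), ENNReal.inv_pow]
          norm_num
      _ = 4⁻¹ := by
          rw [ENNReal.tsum_mul_right, ENNReal.tsum_geometric, ENNReal.one_sub_inv_two, inv_inv]
          rw [show (8 : ℝ≥0∞) = 2 * 4 by norm_num, ENNReal.mul_inv (by simp) (by simp),
            ← mul_assoc, ENNReal.mul_inv_cancel (by simp) (by simp), one_mul]
  · obtain ⟨i, hi, h⟩ := hprop u x hx
    exact ⟨i, hi, fun s hs hsi => mem_iUnion.2 ⟨u, h s hs hsi⟩⟩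

/-- The cumulative exponent. -/
def ee (n r t : ℕ) : ℕ := if t ≤ n then 0 else r * t + Nat.log 2 (t - 1) % r

lemma ee_lt {n r t : ℕ} (hr : 1 ≤ r) (ht : n ≤ t) : ee n r t < ee n r (t + 1) := by
  unfold ee
  have h1 : ¬ t + 1 ≤ n := by omega
  rw [if_neg h1]
  split_ifs with h
  · have : 1 ≤ r * (t + 1) := Nat.mul_pos hr (by omega)
    omega
  · have := Nat.mod_lt (Nat.log 2 (t - 1)) hr
    have h2 : r * (t + 1) = r * t + r := by ring
    omega

/-- The extension of a finite word. -/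
def ext (ω : ℕ → {k : ℕ // 2 ≤ k}) (n r : ℕ) (hr : 1 ≤ r) (t : ℕ) : {k : ℕ // 2 ≤ k} :=
  if h : t < n then ω t else ⟨2 ^ (ee n r (t + 1) - ee n r t), by
    have h1 := ee_lt (n := n) hr (not_lt.1 h)
    calc 2 = 2 ^ 1 := by norm_num
      _ ≤ 2 ^ (ee n r (t + 1) - ee n r t) := Nat.pow_le_pow_right (by norm_num) (by omega)⟩

lemma prod_ext (ω : ℕ → {k : ℕ // 2 ≤ k}) (n r : ℕ) (hr : 1 ≤ r) (t : ℕ) (ht : n ≤ t) :
    ∏ i ∈ Finset.range t, (ext ω n r hr i : ℕ)
      = 2 ^ ee n r t * ∏ i ∈ Finset.range n, (ω i : ℕ) := by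
  induction t, ht using Nat.le_induction with
  | base =>
    have : ee n r n = 0 := by simp [ee]
    rw [this, pow_zero, one_mul]
    refine Finset.prod_congr rfl fun i hi => ?_
    simp [ext, Finset.mem_range.1 hi]
  | succ t ht ih =>
    rw [Finset.prod_range_succ, ih]
    have h1 : (ext ω n r hr t : ℕ) = 2 ^ (ee n r (t + 1) - ee n r t) := by
      simp [ext, not_lt.2 ht]
    have h2 := ee_lt (n := n) hr ht
    rw [h1, mul_right_comm, ← pow_add, Nat.add_sub_cancel' h2.le]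

lemma exists_mod (u r i : ℕ) (hi : i < r) : ∃ v, u ≤ v ∧ v < u + r ∧ v % r = i := by
  have hr : 0 < r := by omega
  refine ⟨u + (i + r - u % r) % r, by omega, ?_, ?_⟩
  · have := Nat.mod_lt (i + r - u % r) hr
    omega
  · have h1 := Nat.mod_lt u hr
    rw [Nat.add_mod, Nat.mod_mod, ← Nat.add_mod_mod, Nat.mod_mod, Nat.add_mod_mod]
    have : u % r + (i + r - u % r) = i + r := by omega
    rw [this, Nat.add_mod_right, Nat.mod_eq_of_lt hi]

theorem main (p : ℝ≥0∞) :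
    IsMeagre {ω : ℕ → {k : ℕ // 2 ≤ k} | ∀ f : UnitAddCircle → ℝ, MemLp f p volume →
      ∀ᵐ x : UnitAddCircle, Tendsto (fun N : ℕ => (1 / (N : ℝ)) * ∑ n ∈ Finset.range N,
        f ((∏ i ∈ Finset.range (n + 1), (ω i : ℕ)) • x)) atTop (𝓝 (∫ y, f y))} := by
  classical
  obtain ⟨A, hA, hAv, hprop⟩ := exists_set
  set f : UnitAddCircle → ℝ := A.indicator 1 with hf
  have hf0 : ∀ y, 0 ≤ f y := fun y => Set.indicator_nonneg (fun _ _ => zero_le_one) y
  let avg : (ℕ → {k : ℕ // 2 ≤ k}) → ℕ → UnitAddCircle → ℝ := fun ω N x =>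
    (1 / (N : ℝ)) * ∑ n ∈ Finset.range N, f ((∏ i ∈ Finset.range (n + 1), (ω i : ℕ)) • x)
  let V : ℕ → Set (ℕ → {k : ℕ // 2 ≤ k}) := fun k =>
    {ω | volume {x | ∀ N, k ≤ N → avg ω N x < 1 / 2} ≤ 2⁻¹}
  have hV : ∀ k, V k ∈ residual (ℕ → {k : ℕ // 2 ≤ k}) := by
    intro k
    refine mem_of_superset (residual_of_dense_open isOpen_interior ?_) interior_subset
    rw [(PiNat.isTopologicalBasis_cylinders fun _ : ℕ => {k : ℕ // 2 ≤ k}).dense_iff]
    rintro o ⟨ω0, n, rfl⟩ -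
    set u := max n k with hu
    set r := 2 ^ (u + 3) with hr
    have hr1 : 1 ≤ r := Nat.one_le_two_pow
    set M := 2 ^ (u + r) with hM
    obtain ⟨Z, hZ, hZv, hZp⟩ := hprop u
    refine ⟨ext ω0 n r hr1, fun i hi => by simp [ext, hi], ?_⟩
    rw [mem_interior]
    refine ⟨PiNat.cylinder (ext ω0 n r hr1) M, ?_, PiNat.isOpen_cylinder _ _ _,
      PiNat.self_mem_cylinder _ _⟩
    intro ω hω
    set lam := ∏ i ∈ Finset.range n, (ω0 i : ℕ) with hlam
    have hlam1 : 1 ≤ lam := Finset.prod_pos fun i _ => lt_of_lt_of_le (by norm_num) (ω0 i).2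
    show volume {x | ∀ N, k ≤ N → avg ω N x < 1 / 2} ≤ 2⁻¹
    refine le_trans ?_ hZv
    rw [← (mp_nsmul hlam1).measure_preimage hZ.nullMeasurableSet]
    apply measure_mono
    intro x hx
    by_contra hxZ
    obtain ⟨i, hi, hx'⟩ := hZp (lam • x) hxZ
    obtain ⟨v, hv1, hv2, hv3⟩ := exists_mod u r i hi
    have hu2 : u < 2 ^ u := Nat.lt_two_pow_self
    have huv : 2 ^ u ≤ 2 ^ v := Nat.pow_le_pow_right (by norm_num) hv1
    have hvM : 2 ^ (v + 1) ≤ M := Nat.pow_le_pow_right (by norm_num) (by omega)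
    have hv2' : 2 ^ (v + 1) = 2 * 2 ^ v := by ring
    have hlt := hx (2 ^ (v + 1)) (by omega)
    have hterm : ∀ t ∈ Finset.Ico (2 ^ v) (2 ^ (v + 1)),
        f ((∏ i ∈ Finset.range (t + 1), (ω i : ℕ)) • x) = 1 := by
      intro t ht
      rw [Finset.mem_Ico] at ht
      have h1 : ∏ i ∈ Finset.range (t + 1), (ω i : ℕ)
          = ∏ i ∈ Finset.range (t + 1), (ext ω0 n r hr1 i : ℕ) :=
        Finset.prod_congr rfl fun i hi => by
          rw [hω i (by have := Finset.mem_range.1 hi; omega)]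
      rw [h1, prod_ext ω0 n r hr1 (t + 1) (by omega), ← smul_smul]
      have hlog : Nat.log 2 t = v := Nat.log_eq_of_pow_le_of_lt_pow ht.1 ht.2
      have he : ee n r (t + 1) = r * (t + 1) + i := by
        unfold ee
        rw [if_neg (by omega), Nat.add_sub_cancel, hlog, hv3]
      have hmem : (2 ^ ee n r (t + 1) : ℕ) • (lam • x) ∈ A := by
        apply hx'
        · rw [he]
          have : r * (t + 1) ≤ r * M := Nat.mul_le_mul_left _ (by omega)
          exact Nat.add_le_add this hi.le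
        · rw [he, Nat.mul_add_mod, Nat.mod_eq_of_lt hi]
      rw [hf, Set.indicator_of_mem hmem]; rfl
    have hsum : ((2 ^ v : ℕ) : ℝ) ≤ ∑ t ∈ Finset.range (2 ^ (v + 1)),
        f ((∏ i ∈ Finset.range (t + 1), (ω i : ℕ)) • x) := by
      calc ((2 ^ v : ℕ) : ℝ) = ∑ t ∈ Finset.Ico (2 ^ v) (2 ^ (v + 1)),
            f ((∏ i ∈ Finset.range (t + 1), (ω i : ℕ)) • x) := by
            rw [Finset.sum_congr rfl hterm, Finset.sum_const, Nat.card_Ico, nsmul_eq_mul, mul_one]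
            congr 1; omega
        _ ≤ _ := by
            apply Finset.sum_le_sum_of_subset_of_nonneg
            · intro t ht
              rw [Finset.mem_Ico] at ht
              exact Finset.mem_range.2 ht.2
            · intro t _ _; exact hf0 _
    simp only [avg] at hlt
    have hpos : (0 : ℝ) < ((2 ^ v : ℕ) : ℝ) := by positivity
    have hcast : ((2 ^ (v + 1) : ℕ) : ℝ) = 2 * ((2 ^ v : ℕ) : ℝ) := by push_cast; ring
    rw [hcast, one_div_mul_eq_div, div_lt_iff₀ (by positivity)] at hlt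
    linarith
  have hall : (⋂ k, V k) ∈ residual (ℕ → {k : ℕ // 2 ≤ k}) := countable_iInter_mem.2 hV
  refine mem_of_superset hall ?_
  intro ω hω hK
  have hfp : MemLp f p volume := memLp_indicator_const p hA 1 (Or.inr (measure_ne_top _ _))
  have hconv := hK f hfp
  have hint : ∫ y, f y < 1 / 2 := by
    rw [hf, integral_indicator_one hA]
    have : volume.real A ≤ 4⁻¹ := by
      have h4 : ((4⁻¹ : ℝ≥0∞)).toReal = 4⁻¹ := by simp
      rw [← h4]
      exact ENNReal.toReal_mono (by simp) hAv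
    linarith
  let C : ℕ → Set UnitAddCircle := fun k => {x | ∀ N, k ≤ N → avg ω N x < 1 / 2}
  have hmono : Monotone C := fun k l hkl x hx N hN => hx N (hkl.trans hN)
  have h1 : volume (⋃ k, C k) ≤ 2⁻¹ := by
    rw [hmono.measure_iUnion]
    exact iSup_le fun k => mem_iInter.1 hω k
  have h2 : (univ : Set UnitAddCircle) ≤ᵐ[volume] (⋃ k, C k : Set UnitAddCircle) := by
    filter_upwards [hconv] with x hx _
    have := hx.eventually (gt_mem_nhds hint)
    obtain ⟨k, hk⟩ := eventually_atTop.1 this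
    exact mem_iUnion.2 ⟨k, fun N hN => hk N hN⟩
  have h3 := (measure_mono_ae h2).trans h1
  rw [UnitAddCircle.measure_univ] at h3
  norm_num at h3

end Pool.Agent.Lib.MP_1ea763_an
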